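import Pool.Agent.helper63.NU.Defs2
import Pool.Agent.helper70.NU.A7
import Pool.Agent.helper69.NU.B2
import Pool.Agent.helper41.NU.B2c
import Pool.Agent.helper51.NU.B3
import Pool.Agent.helper46.NU.B5b
import Pool.Agent.helper41.NU.B7b

set_option autoImplicit false
set_option linter.all false

/-! Module D3a: Poincaré (Brascamp-Lieb) inequality on `M`. -/

open MeasureTheory Filter Topology Set
open scoped ContDiff Manifold Matrix ENNReal ComplexOrder

noncomputable section

namespace Pool.Agent.helper63.NU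

variable {n : ℕ} {M : Type*} [TopologicalSpace M] [ChartedSpace (E n) M]
  [IsManifold 𝓘(ℂ, E n) ω M]
variable [CompactSpace M] [T2Space M]
variable [ConnectedSpace M] [MeasurableSpace M] [BorelSpace M] {μ : Measure M} {φ : Fam n M ℝ}

/-- Module D3: Poincaré (Brascamp-Lieb) inequality for a positive weight on `-K` -/
theorem poincare (hφ : IsWeight 1 φ) (hμ : IsDens μ φ) {ψ : Fam n M ℝ} (hψ : IsPos 1 ψ)
    {v : M → ℝ} (hv : Sm n fun x => ((v x : ℝ) : ℂ)) :
    (∫ x, v x ^ 2 * rt φ ψ x ∂μ) * (∫ x, rt φ ψ x ∂μ) - (∫ x, v x * rt φ ψ x ∂μ) ^ 2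
      ≤ (∫ x, gr ψ v x * rt φ ψ x ∂μ) * (∫ x, rt φ ψ x ∂μ) := by
  have hfin : IsFiniteMeasure μ := isFiniteMeasure_of_isDens hφ hμ
  have hψ' : IsPos (0 + 1) ψ := hψ
  -- the sections
  set s : Fam n M ℂ := fun e y => ((v (e.symm y) : ℝ) : ℂ) with hsdef
  set o : Fam n M ℂ := fun e y => (1 : ℂ) with hodef
  have hs : IsSec 0 s := isSec_zero_iff.1 hv
  have ho : IsSec 0 o := by
    have h1 : Sm n (fun _ : M => (1 : ℂ)) := fun e he => contDiffOn_const
    exact isSec_zero_iff.1 h1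
  -- pointwise formulas
  have hchart : ∀ x : M, (chartAt (E n) x).symm (chartAt (E n) x x) = x := fun x =>
    (chartAt (E n) x).left_inv (mem_chart_source (E n) x)
  have hexp : ∀ x : M, Real.exp (-ψ (chartAt (E n) x) (chartAt (E n) x x)) *
      Real.exp (φ (chartAt (E n) x) (chartAt (E n) x x)) = rt φ ψ x := fun x => by
    rw [rt, ← Real.exp_add]; congr 1; ring
  have hpr : ∀ (a b : Fam n M ℂ) (x : M), fn φ (pr ψ a b) x =
      a (chartAt (E n) x) (chartAt (E n) x x) *
        (starRingEnd ℂ) (b (chartAt (E n) x) (chartAt (E n) x x)) * ((rt φ ψ x : ℝ) : ℂ) := by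
    intro a b x
    rw [fn, pr, ← hexp x]
    push_cast
    ring
  have hden : ∀ {a b : Fam n M ℂ}, IsSec 0 a → IsSec 0 b → Continuous (fn φ (pr ψ a b)) := by
    intro a b ha hb
    refine continuous_fn hφ (pr_isDen hψ'.toIsWeight ha hb) fun e he => ?_
    refine ((ha.smooth e he).continuousOn.mul ?_).mul ?_
    · exact Complex.continuous_conj.comp_continuousOn (hb.smooth e he).continuousOn
    · exact Complex.continuous_ofReal.comp_continuousOn
        (Real.continuous_exp.comp_continuousOn ((hψ.smooth e he).continuousOn.neg))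
  have hint : ∀ {f : M → ℂ}, Continuous f → Integrable f μ := fun hf =>
    hf.integrable_of_hasCompactSupport (HasCompactSupport.of_compactSpace _)
  have e1 : ∀ x, fn φ (pr ψ s s) x = ((v x ^ 2 * rt φ ψ x : ℝ) : ℂ) := fun x => by
    rw [hpr, hsdef]; simp only [hchart, Complex.conj_ofReal]; push_cast; ring
  have e2 : ∀ x, fn φ (pr ψ s o) x = ((v x * rt φ ψ x : ℝ) : ℂ) := fun x => by
    rw [hpr, hsdef, hodef]; simp only [hchart, map_one]; push_cast; ring
  have e3 : ∀ x, fn φ (pr ψ o o) x = ((rt φ ψ x : ℝ) : ℂ) := fun x => by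
    rw [hpr, hodef]; simp only [map_one]; push_cast; ring
  have i1 : Integrable (fun x => v x ^ 2 * rt φ ψ x) μ := by
    have h := (hint (hden hs hs)).re
    refine h.congr (Eventually.of_forall fun x => ?_)
    simp only [e1]; exact Complex.ofReal_re _
  have i2 : Integrable (fun x => v x * rt φ ψ x) μ := by
    have h := (hint (hden hs ho)).re
    refine h.congr (Eventually.of_forall fun x => ?_)
    simp only [e2]; exact Complex.ofReal_re _
  have i3 : Integrable (fun x => rt φ ψ x) μ := by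
    have h := (hint (hden ho ho)).re
    refine h.congr (Eventually.of_forall fun x => ?_)
    simp only [e3]; exact Complex.ofReal_re _
  -- Hörmander
  obtain ⟨h, hh, hle, -⟩ := hormander hφ hμ hψ' hs
  obtain ⟨c, hc⟩ := hh.const
  have hdp : (dp μ φ ψ s s).re = ∫ x, gr ψ v x * rt φ ψ x ∂μ := by
    have : ∀ x, fn φ (en ψ s s) x = ((gr ψ v x * rt φ ψ x : ℝ) : ℂ) := by
      intro x
      have hpos : (lev (ψ (chartAt (E n) x)) (chartAt (E n) x x)).PosDef :=
        hψ.pos _ (chart_mem_atlas (E n) x) _ (mem_chart_target (E n) x)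
      have him := cn_self_im hpos (dbv (s (chartAt (E n) x)) (chartAt (E n) x x))
      have hre : cn (lev (ψ (chartAt (E n) x)) (chartAt (E n) x x))
          (dbv (s (chartAt (E n) x)) (chartAt (E n) x x))
          (dbv (s (chartAt (E n) x)) (chartAt (E n) x x)) = ((gr ψ v x : ℝ) : ℂ) := by
        apply Complex.ext
        · rw [Complex.ofReal_re]; rfl
        · rw [Complex.ofReal_im]; exact him
      rw [fn, en, hre, ← hexp x]
      push_cast
      ring
    rw [dp, integral_congr_ae (Eventually.of_forall this), integral_complex_ofReal, Complex.ofReal_re]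
  have hip : (ip μ φ ψ (s - h) (s - h)).re
      = ∫ x, ‖((v x : ℝ) : ℂ) - c‖ ^ 2 * rt φ ψ x ∂μ := by
    have : ∀ x, fn φ (pr ψ (s - h) (s - h)) x
        = ((‖((v x : ℝ) : ℂ) - c‖ ^ 2 * rt φ ψ x : ℝ) : ℂ) := by
      intro x
      rw [hpr]
      have h1 : (s - h) (chartAt (E n) x) (chartAt (E n) x x) = ((v x : ℝ) : ℂ) - c := by
        rw [Pi.sub_apply, Pi.sub_apply,
          hc _ (chart_mem_atlas (E n) x) _ (mem_chart_target (E n) x), hsdef]
        simp only [hchart]
      rw [h1, Complex.mul_conj, Complex.normSq_eq_norm_sq]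
      push_cast
      ring
    rw [ip, integral_congr_ae (Eventually.of_forall this), integral_complex_ofReal, Complex.ofReal_re]
  have hrt : ∀ x, 0 ≤ rt φ ψ x := fun x => (Real.exp_pos _).le
  set A := ∫ x, v x ^ 2 * rt φ ψ x ∂μ with hA
  set B := ∫ x, v x * rt φ ψ x ∂μ with hB
  set Z := ∫ x, rt φ ψ x ∂μ with hZ
  have hZ0 : 0 ≤ Z := integral_nonneg hrt
  have hq : ∀ x, ‖((v x : ℝ) : ℂ) - c‖ ^ 2 * rt φ ψ x
      = v x ^ 2 * rt φ ψ x - 2 * c.re * (v x * rt φ ψ x) + ‖c‖ ^ 2 * rt φ ψ x := by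
    intro x
    have h1 : ‖((v x : ℝ) : ℂ) - c‖ ^ 2 = (v x - c.re) ^ 2 + c.im ^ 2 := by
      rw [← Complex.normSq_eq_norm_sq, Complex.normSq_apply]
      simp only [Complex.sub_re, Complex.sub_im, Complex.ofReal_re, Complex.ofReal_im]
      ring
    have h2 : ‖c‖ ^ 2 = c.re ^ 2 + c.im ^ 2 := by
      rw [← Complex.normSq_eq_norm_sq, Complex.normSq_apply]; ring
    rw [h1, h2]; ring
  have hval : ∫ x, ‖((v x : ℝ) : ℂ) - c‖ ^ 2 * rt φ ψ x ∂μ
      = A - 2 * c.re * B + ‖c‖ ^ 2 * Z := by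
    have j2 : Integrable (fun x => 2 * c.re * (v x * rt φ ψ x)) μ := i2.const_mul _
    have j3 : Integrable (fun x => ‖c‖ ^ 2 * rt φ ψ x) μ := i3.const_mul _
    have j1 : Integrable (fun x => v x ^ 2 * rt φ ψ x - 2 * c.re * (v x * rt φ ψ x)) μ :=
      i1.sub j2
    rw [integral_congr_ae (Eventually.of_forall hq), integral_add j1 j3, integral_sub i1 j2,
      integral_const_mul, integral_const_mul]
  have hfinal : A - 2 * c.re * B + ‖c‖ ^ 2 * Z ≤ ∫ x, gr ψ v x * rt φ ψ x ∂μ := by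
    rw [← hval, ← hip, ← hdp]; exact hle
  have h2 : ‖c‖ ^ 2 = c.re ^ 2 + c.im ^ 2 := by
    rw [← Complex.normSq_eq_norm_sq, Complex.normSq_apply]; ring
  calc A * Z - B ^ 2 ≤ (A - 2 * c.re * B + ‖c‖ ^ 2 * Z) * Z := by
        rw [h2]
        nlinarith [sq_nonneg (c.re * Z - B), mul_nonneg (sq_nonneg c.im) (mul_nonneg hZ0 hZ0)]
    _ ≤ _ := mul_le_mul_of_nonneg_right hfinal hZ0

end Pool.Agent.helper63.NU
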