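import Pool.Agent.helper31.NU.PDefs
import Pool.Agent.helper41.NU.A2

set_option autoImplicit false
set_option linter.all false

/-! Module P10: the generators `gC C` (helper36). -/

open MeasureTheory Filter Topology Set
open scoped ContDiff ComplexOrder

noncomputable section

namespace Pool.Agent.helper31.NU

open Pool.Agent.helper63.NU (E dz db lev)

variable {m : ℕ} {z : E m}

namespace P10

/-- the vector `C z` -/
def mv (C : Matrix (Fin m) (Fin m) ℂ) (z : E m) (a : Fin m) : ℂ := ∑ b, C a b * z b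

/-- the form `z^* C z` -/
def Q (C : Matrix (Fin m) (Fin m) ℂ) (z : E m) : ℂ :=
  ∑ a, ∑ b, (starRingEnd ℂ) (z a) * C a b * z b

/-- `|z|²` as a complex number -/
def R (z : E m) : ℂ := ∑ j, z j * (starRingEnd ℂ) (z j)

theorem gC_eq (C : Matrix (Fin m) (Fin m) ℂ) (z : E m) : gC C z = (Q C z).re / rr z := rfl

theorem Q_eq (C : Matrix (Fin m) (Fin m) ℂ) (z : E m) :
    Q C z = ∑ a, (starRingEnd ℂ) (z a) * mv C z a := by
  unfold Q mv
  refine Finset.sum_congr rfl (fun a _ => ?_)
  rw [Finset.mul_sum]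
  exact Finset.sum_congr rfl (fun b _ => by ring)

theorem R_eq (z : E m) : R z = ((rr z : ℝ) : ℂ) := by
  unfold R rr
  push_cast
  refine Finset.sum_congr rfl (fun j _ => ?_)
  rw [Complex.mul_conj, Complex.normSq_eq_norm_sq]
  push_cast
  rfl

theorem rr_nonneg (z : E m) : 0 ≤ rr z := Finset.sum_nonneg (fun j _ => by positivity)

theorem rr_pos (hz : z ≠ 0) : 0 < rr z := by
  obtain ⟨j, hj⟩ := Function.ne_iff.1 hz
  have h1 : 0 < ‖z j‖ ^ 2 := by
    have : 0 < ‖z j‖ := norm_pos_iff.2 hj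
    positivity
  have h2 : ‖z j‖ ^ 2 ≤ rr z :=
    Finset.single_le_sum (f := fun j => ‖z j‖ ^ 2) (fun i _ => by positivity) (Finset.mem_univ j)
  linarith

theorem R_ne (hz : z ≠ 0) : R z ≠ 0 := by
  rw [R_eq]
  exact_mod_cast (rr_pos hz).ne'

theorem m_ne (hz : z ≠ 0) : (m : ℝ) ≠ 0 := by
  obtain ⟨j, hj⟩ := Function.ne_iff.1 hz
  have : 0 < m := Fin.pos j
  positivity

theorem Q_conj (C : Matrix (Fin m) (Fin m) ℂ) (z : E m) :
    (starRingEnd ℂ) (Q C z) = Q C.conjTranspose z := by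
  unfold Q
  rw [map_sum]
  simp only [map_sum]
  rw [Finset.sum_comm]
  refine Finset.sum_congr rfl (fun a _ => Finset.sum_congr rfl (fun b _ => ?_))
  rw [Matrix.conjTranspose_apply, map_mul, map_mul, Complex.conj_conj]
  simp only [starRingEnd_apply]
  ring

theorem Q_real {H : Matrix (Fin m) (Fin m) ℂ} (hH : H.IsHermitian) (z : E m) :
    ((Q H z).re : ℂ) = Q H z := by
  have h := Q_conj H z
  rw [hH] at h
  exact Complex.conj_eq_iff_real.1 h |>.elim (fun r hr => by rw [hr]; simp)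

theorem Q_gC {H : Matrix (Fin m) (Fin m) ℂ} (hH : H.IsHermitian) (hz : z ≠ 0) :
    R z * cx (gC H) z = Q H z := by
  show R z * ((gC H z : ℝ) : ℂ) = Q H z
  rw [gC_eq, R_eq]
  push_cast
  rw [Q_real hH]
  have : ((rr z : ℝ) : ℂ) ≠ 0 := by exact_mod_cast (rr_pos hz).ne'
  field_simp

/-! ### Wirtinger derivatives of the coordinates -/

open Pool.Agent.helper63.NU

theorem diffc (j : Fin m) (y : E m) : DifferentiableAt ℂ (fun z : E m => z j) y :=
  (ContinuousLinearMap.proj (R := ℂ) (φ := fun _ : Fin m => ℂ) j).differentiableAt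

theorem diffr (j : Fin m) (y : E m) : DifferentiableAt ℝ (fun z : E m => z j) y :=
  (diffc j y).restrictScalars ℝ

theorem diffrc (j : Fin m) (y : E m) :
    DifferentiableAt ℝ (fun z : E m => (starRingEnd ℂ) (z j)) y :=
  (Complex.conjCLE.differentiableAt (x := y j)).comp y (diffr j y)

theorem dz_coord (a j : Fin m) (y : E m) : dz a (fun z : E m => z j) y = if j = a then 1 else 0 := by
  rw [dz_hol (diffc j y)]
  have h : HasFDerivAt (fun z : E m => z j)
      (ContinuousLinearMap.proj (R := ℂ) (φ := fun _ : Fin m => ℂ) j) y :=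
    (ContinuousLinearMap.proj (R := ℂ) (φ := fun _ : Fin m => ℂ) j).hasFDerivAt
  rw [h.fderiv, ContinuousLinearMap.proj_apply, Pi.single_apply]

theorem db_coord (a j : Fin m) (y : E m) : db a (fun z : E m => z j) y = 0 :=
  db_hol (diffc j y) a

theorem dz_cc (a j : Fin m) (y : E m) : dz a (fun z : E m => (starRingEnd ℂ) (z j)) y = 0 := by
  rw [dz_conj, db_coord, map_zero]

theorem db_cc (a j : Fin m) (y : E m) :
    db a (fun z : E m => (starRingEnd ℂ) (z j)) y = if j = a then 1 else 0 := by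
  rw [db_conj, dz_coord]
  split_ifs <;> simp

theorem diff_mv (C : Matrix (Fin m) (Fin m) ℂ) (a : Fin m) (y : E m) :
    DifferentiableAt ℝ (fun z => mv C z a) y := by
  unfold mv
  exact DifferentiableAt.fun_sum (fun b _ => (diffr b y).const_mul _)

theorem dz_mv (C : Matrix (Fin m) (Fin m) ℂ) (a c : Fin m) (y : E m) :
    dz c (fun z => mv C z a) y = C a c := by
  unfold mv
  rw [dz_sum _ (fun b _ => (diffr b y).const_mul _)]
  simp only [dz_const_mul, dz_coord, mul_ite, mul_one, mul_zero, Finset.sum_ite_eq',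
    Finset.mem_univ, if_true]

theorem db_mv (C : Matrix (Fin m) (Fin m) ℂ) (a c : Fin m) (y : E m) :
    db c (fun z => mv C z a) y = 0 := by
  unfold mv
  rw [db_sum _ (fun b _ => (diffr b y).const_mul _)]
  simp only [db_const_mul, db_coord, mul_zero, Finset.sum_const_zero]

theorem diff_R (y : E m) : DifferentiableAt ℝ (R : E m → ℂ) y := by
  unfold R
  exact DifferentiableAt.fun_sum (fun b _ => (diffr b y).mul (diffrc b y))

theorem db_R (b : Fin m) (y : E m) : db b R y = y b := by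
  show db b (fun z : E m => ∑ j, z j * (starRingEnd ℂ) (z j)) y = y b
  rw [db_sum (f := fun j (z : E m) => z j * (starRingEnd ℂ) (z j)) _
    (fun b _ => (diffr b y).mul (diffrc b y))]
  have : ∀ j, db b (fun z : E m => z j * (starRingEnd ℂ) (z j)) y = if j = b then y j else 0 := by
    intro j
    rw [db_mul (diffr j y) (diffrc j y), db_coord, db_cc]
    split_ifs <;> simp
  simp only [this, Finset.sum_ite_eq', Finset.mem_univ, if_true]

theorem dz_R (b : Fin m) (y : E m) : dz b R y = (starRingEnd ℂ) (y b) := by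
  show dz b (fun z : E m => ∑ j, z j * (starRingEnd ℂ) (z j)) y = _
  rw [dz_sum (f := fun j (z : E m) => z j * (starRingEnd ℂ) (z j)) _
    (fun b _ => (diffr b y).mul (diffrc b y))]
  have : ∀ j, dz b (fun z : E m => z j * (starRingEnd ℂ) (z j)) y =
      if j = b then (starRingEnd ℂ) (y j) else 0 := by
    intro j
    rw [dz_mul (diffr j y) (diffrc j y), dz_coord, dz_cc]
    split_ifs <;> simp
  simp only [this, Finset.sum_ite_eq', Finset.mem_univ, if_true]

theorem db_Q (C : Matrix (Fin m) (Fin m) ℂ) (b : Fin m) (y : E m) : db b (Q C) y = mv C y b := by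
  have e : Q C = fun z => ∑ a, (starRingEnd ℂ) (z a) * mv C z a := funext (Q_eq C)
  rw [e, db_sum (f := fun a (z : E m) => (starRingEnd ℂ) (z a) * mv C z a) _
    (fun a _ => (diffrc a y).mul (diff_mv C a y))]
  have : ∀ j, db b (fun z : E m => (starRingEnd ℂ) (z j) * mv C z j) y =
      if j = b then mv C y j else 0 := by
    intro j
    rw [db_mul (diffrc j y) (diff_mv C j y), db_cc, db_mv]
    split_ifs <;> simp
  simp only [this, Finset.sum_ite_eq', Finset.mem_univ, if_true]

/-! ### Smoothness -/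

theorem cd_coord (j : Fin m) : ContDiff ℝ ∞ (fun z : E m => z j) := contDiff_apply ℝ ℂ j

theorem cd_cc (j : Fin m) : ContDiff ℝ ∞ (fun z : E m => (starRingEnd ℂ) (z j)) :=
  Complex.conjCLE.contDiff.comp (cd_coord j)

theorem cd_Q (C : Matrix (Fin m) (Fin m) ℂ) : ContDiff ℝ ∞ (Q C) := by
  unfold Q
  exact ContDiff.sum (fun a _ => ContDiff.sum (fun b _ =>
    ((cd_cc a).mul contDiff_const).mul (cd_coord b)))

theorem cd_rr : ContDiff ℝ ∞ (rr : E m → ℝ) := by
  have h : ContDiff ℝ ∞ (R : E m → ℂ) := by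
    unfold R
    exact ContDiff.sum (fun a _ => (cd_coord a).mul (cd_cc a))
  have e : (rr : E m → ℝ) = fun z => (R z).re := by
    funext z
    rw [R_eq, Complex.ofReal_re]
  rw [e]
  exact Complex.reCLM.contDiff.comp h

theorem smooth_gC (C : Matrix (Fin m) (Fin m) ℂ) : ContDiffOn ℝ ∞ (gC C) {0}ᶜ := by
  have h1 : ContDiff ℝ ∞ (fun z => (Q C z).re) := Complex.reCLM.contDiff.comp (cd_Q C)
  exact h1.contDiffOn.div cd_rr.contDiffOn (fun z hz => (rr_pos hz).ne')

theorem cd2 (C : Matrix (Fin m) (Fin m) ℂ) (hz : z ≠ 0) : ContDiffAt ℝ 2 (gC C) z :=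
  contDiffAt_infty.1 ((smooth_gC C).contDiffAt (isOpen_compl_singleton.mem_nhds hz)) 2

theorem diff_gC (C : Matrix (Fin m) (Fin m) ℂ) (hz : z ≠ 0) :
    DifferentiableAt ℝ (cx (gC C)) z :=
  (A2.ofReal2 (cd2 C hz)).differentiableAt (by norm_num)

/-- `R ∂̄_b (Q/R) = (H z)_b - z_b Q/R` -/
theorem db_gC {H : Matrix (Fin m) (Fin m) ℂ} (hH : H.IsHermitian) (hz : z ≠ 0) (b : Fin m) :
    R z * db b (cx (gC H)) z = mv H z b - z b * cx (gC H) z := by
  have h1 : db b (fun w => R w * cx (gC H) w) z = db b (Q H) z := by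
    apply db_congr
    filter_upwards [isOpen_compl_singleton.mem_nhds hz] with w hw
    exact Q_gC hH hw
  rw [db_mul (diff_R z) (diff_gC H hz), db_R, db_Q] at h1
  rw [← h1]
  ring

theorem dz_gC {H : Matrix (Fin m) (Fin m) ℂ} (hH : H.IsHermitian) (hz : z ≠ 0) (b : Fin m) :
    R z * dz b (cx (gC H)) z = (starRingEnd ℂ) (mv H z b) - (starRingEnd ℂ) (z b) * cx (gC H) z := by
  have h := congrArg (starRingEnd ℂ) (db_gC hH hz b)
  rw [map_mul, map_sub, map_mul, R_eq, Complex.conj_ofReal, A2.dz_real, ← R_eq] at h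
  rw [h]
  simp only [cx, Complex.conj_ofReal]

/-- `∑ z̄_a (H z)_a = R F` -/
theorem sum_mv {H : Matrix (Fin m) (Fin m) ℂ} (hH : H.IsHermitian) (hz : z ≠ 0) :
    ∑ a, (starRingEnd ℂ) (z a) * mv H z a = R z * cx (gC H) z := by
  rw [Q_gC hH hz, Q_eq]

theorem sum_mvc {H : Matrix (Fin m) (Fin m) ℂ} (hH : H.IsHermitian) (hz : z ≠ 0) :
    ∑ a, z a * (starRingEnd ℂ) (mv H z a) = R z * cx (gC H) z := by
  have h := congrArg (starRingEnd ℂ) (sum_mv hH hz)
  rw [map_sum, map_mul, R_eq, Complex.conj_ofReal] at h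
  simp only [map_mul, Complex.conj_conj, Complex.conj_ofReal, cx] at h
  rw [h, R_eq]

theorem lev_gC {H : Matrix (Fin m) (Fin m) ℂ} (hH : H.IsHermitian) (hz : z ≠ 0) (a : Fin m) :
    R z * lev (gC H) z a a = H a a - cx (gC H) z - z a * dz a (cx (gC H)) z
      - (starRingEnd ℂ) (z a) * db a (cx (gC H)) z := by
  have h1 : dz a (fun w => R w * db a (cx (gC H)) w) z =
      dz a (fun w => mv H w a - w a * cx (gC H) w) z := by
    apply dz_congr
    filter_upwards [isOpen_compl_singleton.mem_nhds hz] with w hw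
    exact db_gC hH hw a
  rw [dz_mul (diff_R z) (A2.diff_db (A2.ofReal2 (cd2 H hz)) a), dz_R,
    dz_sub (g := fun w : E m => w a * cx (gC H) w) (diff_mv H a z)
      ((diffr a z).mul (diff_gC H hz)), dz_mv,
    dz_mul (diffr a z) (diff_gC H hz), dz_coord, if_pos rfl] at h1
  have e : lev (gC H) z a a = dz a (db a (cx (gC H))) z := rfl
  rw [e]
  linear_combination h1

theorem sum_lev {H : Matrix (Fin m) (Fin m) ℂ} (hH : H.IsHermitian) (hz : z ≠ 0) :
    R z * ∑ a, lev (gC H) z a a = H.trace - m * cx (gC H) z := by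
  have hR := R_ne hz
  have h1 : ∑ a, z a * dz a (cx (gC H)) z = 0 := by
    apply mul_left_cancel₀ hR
    rw [mul_zero, Finset.mul_sum]
    have : ∀ a, R z * (z a * dz a (cx (gC H)) z) =
        z a * (starRingEnd ℂ) (mv H z a) - z a * (starRingEnd ℂ) (z a) * cx (gC H) z := by
      intro a
      linear_combination z a * dz_gC hH hz a
    rw [Finset.sum_congr rfl (fun a _ => this a), Finset.sum_sub_distrib, sum_mvc hH hz,
      ← Finset.sum_mul]
    exact sub_self _
  have h2 : ∑ a, (starRingEnd ℂ) (z a) * db a (cx (gC H)) z = 0 := by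
    apply mul_left_cancel₀ hR
    rw [mul_zero, Finset.mul_sum]
    have : ∀ a, R z * ((starRingEnd ℂ) (z a) * db a (cx (gC H)) z) =
        (starRingEnd ℂ) (z a) * mv H z a - z a * (starRingEnd ℂ) (z a) * cx (gC H) z := by
      intro a
      linear_combination (starRingEnd ℂ) (z a) * db_gC hH hz a
    rw [Finset.sum_congr rfl (fun a _ => this a), Finset.sum_sub_distrib, sum_mv hH hz,
      ← Finset.sum_mul]
    exact sub_self _
  rw [Finset.mul_sum, Finset.sum_congr rfl (fun a _ => lev_gC hH hz a), Finset.sum_sub_distrib,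
    Finset.sum_sub_distrib, Finset.sum_sub_distrib, h1, h2, Finset.sum_const, Finset.card_univ,
    Fintype.card_fin, nsmul_eq_mul, sub_zero, sub_zero]
  rfl

theorem mv_mul (H K : Matrix (Fin m) (Fin m) ℂ) (hH : H.IsHermitian) (z : E m) :
    ∑ a, (starRingEnd ℂ) (mv H z a) * mv K z a = Q (H * K) z := by
  have h1 : ∀ a, (starRingEnd ℂ) (mv H z a) = ∑ b, (starRingEnd ℂ) (z b) * H b a := by
    intro a
    unfold mv
    rw [map_sum]
    refine Finset.sum_congr rfl (fun b _ => ?_)
    rw [map_mul, mul_comm]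
    congr 1
    have := hH.apply b a
    rw [starRingEnd_apply]
    exact this
  simp only [h1]
  rw [Q_eq]
  simp only [Finset.sum_mul]
  rw [Finset.sum_comm]
  refine Finset.sum_congr rfl (fun b _ => ?_)
  unfold mv
  simp only [Matrix.mul_apply, Finset.mul_sum, Finset.sum_mul]
  rw [Finset.sum_comm]
  refine Finset.sum_congr rfl (fun c _ => Finset.sum_congr rfl (fun a _ => by ring))

theorem GH_sum {H K : Matrix (Fin m) (Fin m) ℂ} (hH : H.IsHermitian) (hK : K.IsHermitian)
    (hz : z ≠ 0) :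
    R z * R z * ∑ a, dz a (cx (gC H)) z * db a (cx (gC K)) z =
      Q (H * K) z - R z * cx (gC H) z * cx (gC K) z := by
  rw [Finset.mul_sum]
  have : ∀ a, R z * R z * (dz a (cx (gC H)) z * db a (cx (gC K)) z) =
      (starRingEnd ℂ) (mv H z a) * mv K z a - z a * (starRingEnd ℂ) (mv H z a) * cx (gC K) z
        - (starRingEnd ℂ) (z a) * mv K z a * cx (gC H) z
        + z a * (starRingEnd ℂ) (z a) * (cx (gC H) z * cx (gC K) z) := by
    intro a
    have e : R z * R z * (dz a (cx (gC H)) z * db a (cx (gC K)) z) =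
      (R z * dz a (cx (gC H)) z) * (R z * db a (cx (gC K)) z) := by ring
    rw [e, dz_gC hH hz, db_gC hK hz]
    ring
  rw [Finset.sum_congr rfl (fun a _ => this a), Finset.sum_add_distrib, Finset.sum_sub_distrib,
    Finset.sum_sub_distrib, mv_mul H K hH, ← Finset.sum_mul, ← Finset.sum_mul, ← Finset.sum_mul,
    sum_mvc hH hz, sum_mv hK hz]
  have e : ∑ a, z a * (starRingEnd ℂ) (z a) = R z := rfl
  rw [e]
  ring

end P10

open P10

theorem gC_add (C D : Matrix (Fin m) (Fin m) ℂ) (z : E m) : gC (C + D) z = gC C z + gC D z := by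
  unfold gC
  rw [← add_div, ← Complex.add_re, ← Finset.sum_add_distrib]
  congr 2
  refine Finset.sum_congr rfl (fun a _ => ?_)
  rw [← Finset.sum_add_distrib]
  refine Finset.sum_congr rfl (fun b _ => ?_)
  rw [Matrix.add_apply]
  ring

theorem gC_smul (c : ℝ) (C : Matrix (Fin m) (Fin m) ℂ) (z : E m) :
    gC ((c : ℂ) • C) z = c * gC C z := by
  unfold gC
  rw [← mul_div_assoc, ← Complex.re_ofReal_mul, Finset.mul_sum]
  congr 2
  refine Finset.sum_congr rfl (fun a _ => ?_)
  rw [Finset.mul_sum]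
  refine Finset.sum_congr rfl (fun b _ => ?_)
  rw [Matrix.smul_apply, smul_eq_mul]
  ring

theorem gC_one (hz : z ≠ 0) : gC (1 : Matrix (Fin m) (Fin m) ℂ) z = 1 := by
  have h : Q (1 : Matrix (Fin m) (Fin m) ℂ) z = ((rr z : ℝ) : ℂ) := by
    rw [← R_eq]
    unfold Q R
    refine Finset.sum_congr rfl (fun a _ => ?_)
    rw [Finset.sum_eq_single a]
    · rw [Matrix.one_apply_eq]; ring
    · intro b _ hb
      rw [Matrix.one_apply_ne (Ne.symm hb)]; ring
    · intro h; exact absurd (Finset.mem_univ a) h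
  rw [gC_eq, h, Complex.ofReal_re]
  exact div_self (rr_pos hz).ne'

theorem gC_conjTranspose (C : Matrix (Fin m) (Fin m) ℂ) (z : E m) :
    gC C.conjTranspose z = gC C z := by
  rw [gC_eq, gC_eq, ← Q_conj, Complex.conj_re]

theorem SH_gC (C : Matrix (Fin m) (Fin m) ℂ) : SH (gC C) := by
  refine ⟨smooth_gC C, fun c z hc => ?_⟩
  rw [gC_eq, gC_eq]
  have h1 : Q C (c • z) = ((‖c‖ ^ 2 : ℝ) : ℂ) * Q C z := by
    have e : ((‖c‖ ^ 2 : ℝ) : ℂ) = c * (starRingEnd ℂ) c := by
      rw [Complex.mul_conj, Complex.normSq_eq_norm_sq]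
    rw [e]
    unfold Q
    rw [Finset.mul_sum]
    refine Finset.sum_congr rfl (fun a _ => ?_)
    rw [Finset.mul_sum]
    refine Finset.sum_congr rfl (fun b _ => ?_)
    simp only [Pi.smul_apply, smul_eq_mul, map_mul]
    ring
  have h2 : rr (c • z) = ‖c‖ ^ 2 * rr z := by
    unfold rr
    rw [Finset.mul_sum]
    refine Finset.sum_congr rfl (fun a _ => ?_)
    rw [Pi.smul_apply, smul_eq_mul, norm_mul, mul_pow]
  rw [h1, h2, Complex.re_ofReal_mul]
  have : ‖c‖ ^ 2 ≠ 0 := by
    have : 0 < ‖c‖ := norm_pos_iff.2 hc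
    positivity
  exact mul_div_mul_left _ _ this

theorem P10.LH_herm {H : Matrix (Fin m) (Fin m) ℂ} (hH : H.IsHermitian) (hz : z ≠ 0) :
    LH (gC H) z = H.trace.re / m - gC H z := by
  have h := congrArg Complex.re (sum_lev hH hz)
  rw [R_eq, Complex.re_ofReal_mul, Complex.re_sum, Complex.sub_re] at h
  have e : ((m : ℂ) * cx (gC H) z).re = m * gC H z := by
    show ((m : ℂ) * ((gC H z : ℝ) : ℂ)).re = _
    rw [← Complex.ofReal_natCast, ← Complex.ofReal_mul, Complex.ofReal_re]
  rw [e] at h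
  have hm := m_ne hz
  unfold LH
  rw [div_mul_eq_mul_div, h, sub_div, mul_div_cancel_left₀ _ hm]

/-- `P/r²` with `P = z^* C z` (`C` Hermitian): `∂_a∂̄_b P = C_{ba}`, ... -/
theorem LH_gC (C : Matrix (Fin m) (Fin m) ℂ) (hz : z ≠ 0) :
    LH (gC C) z = C.trace.re / m - gC C z := by
  set H : Matrix (Fin m) (Fin m) ℂ := (((1 / 2 : ℝ) : ℝ) : ℂ) • (C + C.conjTranspose) with hHdef
  have hH : H.IsHermitian := by
    unfold Matrix.IsHermitian
    rw [hHdef, Matrix.conjTranspose_smul, Matrix.conjTranspose_add,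
      Matrix.conjTranspose_conjTranspose, add_comm]
    congr 1
    exact Complex.conj_ofReal _
  have e : gC H = gC C := by
    funext w
    rw [hHdef, gC_smul, gC_add, gC_conjTranspose]
    ring
  have t : H.trace.re = C.trace.re := by
    rw [hHdef, Matrix.trace_smul, Matrix.trace_add, Matrix.trace_conjTranspose, smul_eq_mul,
      Complex.re_ofReal_mul, Complex.add_re]
    have : (star C.trace).re = C.trace.re := Complex.conj_re _
    rw [this]
    ring
  rw [← e, ← t]
  exact P10.LH_herm hH hz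

theorem GH_gC {C D : Matrix (Fin m) (Fin m) ℂ} (hC : C.IsHermitian) (hD : D.IsHermitian)
    (hz : z ≠ 0) :
    GH (gC C) (gC D) z = (gC (C * D + D * C) z / 2 - gC C z * gC D z) / m := by
  have hr := rr_pos hz
  have hm := m_ne hz
  have h := congrArg Complex.re (GH_sum hC hD hz)
  have e1 : gC (C * D + D * C) z / 2 = gC (C * D) z := by
    have : D * C = (C * D).conjTranspose := by
      rw [Matrix.conjTranspose_mul, hC, hD]
    rw [gC_add, this, gC_conjTranspose]
    ring
  rw [e1, gC_eq (C * D)]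
  rw [R_eq, ← Complex.ofReal_mul, Complex.re_ofReal_mul, Complex.sub_re] at h
  have e2 : (((rr z : ℝ) : ℂ) * cx (gC C) z * cx (gC D) z).re = rr z * gC C z * gC D z := by
    show (((rr z : ℝ) : ℂ) * ((gC C z : ℝ) : ℂ) * ((gC D z : ℝ) : ℂ)).re = _
    rw [← Complex.ofReal_mul, ← Complex.ofReal_mul, Complex.ofReal_re]
  rw [e2] at h
  unfold GH
  have h3 : (∑ a, dz a (cx (gC C)) z * db a (cx (gC D)) z).re =
      ((Q (C * D) z).re - rr z * gC C z * gC D z) / (rr z * rr z) := by
    rw [← h]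
    field_simp
  rw [h3]
  field_simp

/-- `C = z z^*`: equality in Cauchy–Schwarz -/
theorem gC_sep {w : E m} (hz : z ≠ 0) (hw : w ≠ 0) (h : ∀ c : ℂ, c ≠ 0 → c • w ≠ z) :
    ∃ C : Matrix (Fin m) (Fin m) ℂ, C.IsHermitian ∧ gC C z ≠ gC C w := by
  set C : Matrix (Fin m) (Fin m) ℂ := Matrix.of fun a b => z a * (starRingEnd ℂ) (z b) with hCdef
  have hC : ∀ a b, C a b = z a * (starRingEnd ℂ) (z b) := fun a b => rfl
  have hCH : C.IsHermitian := by
    ext a b
    rw [Matrix.conjTranspose_apply, hC, hC, ← starRingEnd_apply, map_mul, Complex.conj_conj]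
    ring
  refine ⟨C, hCH, fun heq => ?_⟩
  have hQ : ∀ v : E m, Q C v =
      (∑ a, (starRingEnd ℂ) (v a) * z a) * (∑ b, (starRingEnd ℂ) (z b) * v b) := by
    intro v
    unfold Q
    rw [Finset.sum_mul_sum]
    refine Finset.sum_congr rfl (fun a _ => Finset.sum_congr rfl (fun b _ => ?_))
    rw [hC]
    ring
  have hz0 := rr_pos hz
  have hw0 := rr_pos hw
  set s : ℂ := ∑ a, (starRingEnd ℂ) (w a) * z a with hs
  have hsc : (starRingEnd ℂ) s = ∑ b, (starRingEnd ℂ) (z b) * w b := by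
    rw [hs, map_sum]
    refine Finset.sum_congr rfl (fun a _ => ?_)
    rw [map_mul, Complex.conj_conj]
    ring
  have h1 : gC C z = rr z := by
    rw [gC_eq, hQ]
    have e : ∑ a, (starRingEnd ℂ) (z a) * z a = ((rr z : ℝ) : ℂ) := by
      rw [← R_eq]
      exact Finset.sum_congr rfl (fun a _ => mul_comm _ _)
    rw [e, ← Complex.ofReal_mul, Complex.ofReal_re]
    field_simp
  have h2 : gC C w = Complex.normSq s / rr w := by
    rw [gC_eq, hQ, ← hs, ← hsc, Complex.mul_conj, Complex.ofReal_re]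
  have h3 : Complex.normSq s = rr z * rr w := by
    rw [h1, h2] at heq
    field_simp at heq
    linarith
  -- the defect
  have h4 : ∑ j, (((rr w : ℝ) : ℂ) * z j - s * w j) *
      (starRingEnd ℂ) (((rr w : ℝ) : ℂ) * z j - s * w j) = 0 := by
    have : ∀ j, (((rr w : ℝ) : ℂ) * z j - s * w j) *
        (starRingEnd ℂ) (((rr w : ℝ) : ℂ) * z j - s * w j) =
        ((rr w : ℝ) : ℂ) ^ 2 * (z j * (starRingEnd ℂ) (z j))
        - ((rr w : ℝ) : ℂ) * (starRingEnd ℂ) s * ((starRingEnd ℂ) (w j) * z j)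
        - ((rr w : ℝ) : ℂ) * s * ((starRingEnd ℂ) (z j) * w j)
        + s * (starRingEnd ℂ) s * (w j * (starRingEnd ℂ) (w j)) := by
      intro j
      rw [map_sub, map_mul, map_mul, Complex.conj_ofReal]
      ring
    rw [Finset.sum_congr rfl (fun a _ => this a), Finset.sum_add_distrib, Finset.sum_sub_distrib,
      Finset.sum_sub_distrib, ← Finset.mul_sum, ← Finset.mul_sum, ← Finset.mul_sum,
      ← Finset.mul_sum, ← hs, ← hsc]
    have e1 : ∑ a, z a * (starRingEnd ℂ) (z a) = ((rr z : ℝ) : ℂ) := R_eq z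
    have e2 : ∑ a, w a * (starRingEnd ℂ) (w a) = ((rr w : ℝ) : ℂ) := R_eq w
    have e3 : s * (starRingEnd ℂ) s = ((rr z : ℝ) : ℂ) * ((rr w : ℝ) : ℂ) := by
      rw [Complex.mul_conj, h3]
      push_cast
      rfl
    rw [e1, e2]
    linear_combination (-((rr w : ℝ) : ℂ)) * e3
  have h5 : ∀ j, ((rr w : ℝ) : ℂ) * z j - s * w j = 0 := by
    have h6 : rr (fun j => ((rr w : ℝ) : ℂ) * z j - s * w j) = 0 := by
      have := R_eq (fun j => ((rr w : ℝ) : ℂ) * z j - s * w j)
      have h7 : R (fun j => ((rr w : ℝ) : ℂ) * z j - s * w j) = 0 := h4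
      rw [h7] at this
      exact_mod_cast this.symm
    by_contra hne
    push Not at hne
    obtain ⟨j, hj⟩ := hne
    have : (fun j => ((rr w : ℝ) : ℂ) * z j - s * w j) ≠ (0 : E m) := fun h0 =>
      hj (congrFun h0 j)
    exact (rr_pos this).ne' h6
  have hwc : ((rr w : ℝ) : ℂ) ≠ 0 := by exact_mod_cast hw0.ne'
  have hs0 : s ≠ 0 := by
    intro h0
    rw [h0, map_zero] at h3
    have : 0 < rr z * rr w := mul_pos hz0 hw0
    linarith
  apply h (s / ((rr w : ℝ) : ℂ)) (div_ne_zero hs0 hwc)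
  funext j
  rw [Pi.smul_apply, smul_eq_mul, div_mul_eq_mul_div, div_eq_iff hwc]
  linear_combination -(h5 j)

end Pool.Agent.helper31.NU
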